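import Pool.Agent.P8H51.EA.Stm

/-!
# Project EA: the packages UPP, LOW, ROOT
-/

set_option autoImplicit false

namespace Pool.Agent.P8H71.EA

open NumberField Finset Pool.Agent.H458.Sp Pool.Agent.P8H51.EA

variable {K : Type} [Field K] [NumberField K]

theorem norm_em_le (φ : K →+* ℂ) (a : 𝓞 K) : ‖em φ a‖ ≤ hs a :=
  norm_embedding_le_house _ φ

theorem em_natCast (φ : K →+* ℂ) (b : ℕ) : em φ (b : 𝓞 K) = (b : ℂ) := map_natCast _ b

theorem em_ne_zero (φ : K →+* ℂ) {a : 𝓞 K} (ha : a ≠ 0) : em φ a ≠ 0 := by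
  have h : (algebraMap (𝓞 K) K a) ≠ 0 := fun h => ha (RingOfIntegers.coe_eq_zero_iff.1 h)
  exact (map_ne_zero φ).2 h

theorem coeff_dig {r : ℕ} (b : ℕ) (m l : Fin r → ℕ) (c : Fin r → 𝓞 K) (w : ℕ) :
    (dig b m l c).coeff w = ∑ j ∈ univ.filter (fun j => w = l j), c j * (b : 𝓞 K) ^ (m j) := by
  unfold dig
  rw [Polynomial.finsetSum_coeff]
  simp_rw [Polynomial.coeff_C_mul_X_pow]
  rw [← Finset.sum_filter]

theorem exists_of_coeff {r : ℕ} (b : ℕ) (m l : Fin r → ℕ) (c : Fin r → 𝓞 K) (w : ℕ)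
    (hw : (dig b m l c).coeff w ≠ 0) : ∃ j, l j = w := by
  by_contra hno
  push Not at hno
  apply hw
  rw [coeff_dig, Finset.filter_false_of_mem (fun j _ => (hno j).symm), Finset.sum_empty]

theorem sum_coeff_le {r : ℕ} (b f : ℕ) (m l : Fin r → ℕ) (c : Fin r → 𝓞 K) (B : ℝ) (hb : 2 ≤ b)
    (hm : ∀ j, m j ≤ f) (hc : ∀ j, hs (c j) ≤ B) (φ : K →+* ℂ) (s : Finset ℕ) :
    ∑ w ∈ s, ‖em φ ((dig b m l c).coeff w)‖ ≤ r * B * (b : ℝ) ^ f := by
  have hb' : (2 : ℝ) ≤ b := by exact_mod_cast hb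
  have hB : ∀ _j : Fin r, 0 ≤ B := fun j => (hs_nonneg (c j)).trans (hc j)
  calc ∑ w ∈ s, ‖em φ ((dig b m l c).coeff w)‖ ≤
      ∑ w ∈ s, ∑ j ∈ univ.filter (fun j => w = l j), B * (b : ℝ) ^ f := by
        refine Finset.sum_le_sum fun w _ => ?_
        rw [coeff_dig, map_sum]
        refine (norm_sum_le _ _).trans (Finset.sum_le_sum fun j _ => ?_)
        rw [map_mul, map_pow, em_natCast, norm_mul, norm_pow, Complex.norm_natCast]
        have h2 : (b : ℝ) ^ (m j) ≤ (b : ℝ) ^ f := pow_le_pow_right₀ (by linarith) (hm j)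
        exact mul_le_mul ((norm_em_le φ _).trans (hc j)) h2 (by positivity) (hB j)
    _ = ∑ w ∈ s, ∑ j : Fin r, if w = l j then B * (b : ℝ) ^ f else 0 := by
        refine Finset.sum_congr rfl fun w _ => ?_
        rw [Finset.sum_filter]
    _ = ∑ j : Fin r, ∑ w ∈ s, if w = l j then B * (b : ℝ) ^ f else 0 := Finset.sum_comm
    _ ≤ ∑ _j : Fin r, B * (b : ℝ) ^ f := by
        refine Finset.sum_le_sum fun j _ => ?_
        rw [Finset.sum_ite_eq']
        have := hB j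
        split_ifs
        · exact le_rfl
        · positivity
    _ = r * B * (b : ℝ) ^ f := by
        rw [Finset.sum_const, Finset.card_univ, Fintype.card_fin, nsmul_eq_mul, mul_assoc]

theorem upp : S_UPP := by
  intro K _ _ r b f m l c B hb hm hc φ
  have hb' : (2 : ℝ) ≤ b := by exact_mod_cast hb
  rw [Polynomial.eval_eq_sum_range, map_sum]
  refine (norm_sum_le _ _).trans ?_
  calc ∑ w ∈ Finset.range ((dig b m l c).natDegree + 1),
        ‖em φ ((dig b m l c).coeff w * (b : 𝓞 K) ^ w)‖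
      ≤ ∑ w ∈ Finset.range ((dig b m l c).natDegree + 1),
        ‖em φ ((dig b m l c).coeff w)‖ * (b : ℝ) ^ (dig b m l c).natDegree := by
        refine Finset.sum_le_sum fun w hw => ?_
        rw [map_mul, map_pow, em_natCast, norm_mul, norm_pow, Complex.norm_natCast]
        refine mul_le_mul_of_nonneg_left ?_ (norm_nonneg _)
        exact pow_le_pow_right₀ (by linarith) (by rw [Finset.mem_range] at hw; omega)
    _ = (∑ w ∈ Finset.range ((dig b m l c).natDegree + 1), ‖em φ ((dig b m l c).coeff w)‖) *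
        (b : ℝ) ^ (dig b m l c).natDegree := by rw [Finset.sum_mul]
    _ ≤ _ := mul_le_mul_of_nonneg_right (sum_coeff_le b f m l c B hb hm hc φ _) (by positivity)

/-- the norm is the product over the embeddings -/
theorem absnorm_prod (a : 𝓞 K) : |((Algebra.norm ℤ a : ℤ) : ℝ)| = ∏ φ : K →+* ℂ, ‖em φ a‖ := by
  have h1 := Algebra.norm_eq_prod_embeddings ℚ ℂ (algebraMap (𝓞 K) K a)
  have h2 : ((Algebra.norm ℤ a : ℤ) : ℚ) = Algebra.norm ℚ (algebraMap (𝓞 K) K a) :=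
    Algebra.coe_norm_int a
  rw [← h2] at h1
  have h3 : ‖algebraMap ℚ ℂ ((Algebra.norm ℤ a : ℤ) : ℚ)‖ = |((Algebra.norm ℤ a : ℤ) : ℝ)| := by
    rw [map_intCast, Complex.norm_intCast]
  rw [← h3, h1, norm_prod]
  exact Fintype.prod_equiv (RingHom.equivRatAlgHom K ℂ).symm _ _ (fun σ => rfl)

theorem one_le_prod {a : 𝓞 K} (ha : a ≠ 0) : 1 ≤ ∏ φ : K →+* ℂ, ‖em φ a‖ := by
  rw [← absnorm_prod]
  have h : Algebra.norm ℤ a ≠ 0 := Algebra.norm_ne_zero_iff.2 ha
  exact_mod_cast Int.one_le_abs h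

/-- lower bound for one conjugate -/
theorem conj_lower {a : 𝓞 K} (ha : a ≠ 0) (M : ℝ) (hM : ∀ ψ : K →+* ℂ, ‖em ψ a‖ ≤ M)
    (φ : K →+* ℂ) : 1 ≤ ‖em φ a‖ * M ^ (Module.finrank ℚ K - 1) := by
  classical
  have h1 := one_le_prod ha
  rw [← Finset.mul_prod_erase Finset.univ _ (Finset.mem_univ φ)] at h1
  refine h1.trans (mul_le_mul_of_nonneg_left ?_ (norm_nonneg _))
  have hcard : (Finset.univ.erase φ).card = Module.finrank ℚ K - 1 := by
    rw [Finset.card_erase_of_mem (Finset.mem_univ _), Finset.card_univ,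
      NumberField.Embeddings.card K ℂ]
  rw [← hcard, ← Finset.prod_const]
  exact Finset.prod_le_prod (fun _ _ => norm_nonneg _) fun ψ _ => hM ψ

/-- the common part of LOW and ROOT: the data of the leading coefficient -/
theorem lead_data {r : ℕ} (b f : ℕ) (m l : Fin r → ℕ) (c : Fin r → 𝓞 K) (B : ℝ) (hb : 2 ≤ b)
    (hm : ∀ j, m j ≤ f) (hc : ∀ j, hs (c j) ≤ B) (h0 : dig b m l c ≠ 0) (φ : K →+* ℂ) :
    1 ≤ ‖em φ ((dig b m l c).coeff (dig b m l c).natDegree)‖ *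
      (r * B * (b : ℝ) ^ f) ^ (Module.finrank ℚ K - 1) := by
  have hW : (dig b m l c).coeff (dig b m l c).natDegree ≠ 0 := by simpa using h0
  refine conj_lower hW _ (fun ψ => ?_) φ
  have := sum_coeff_le b f m l c B hb hm hc ψ {(dig b m l c).natDegree}
  simpa using this

theorem low : S_LOW := by
  intro K _ _ r b f g m l c B hb hm hc h0 hgap hbg
  set P := dig b m l c with hP
  set W := P.natDegree with hW
  set M : ℝ := r * B * (b : ℝ) ^ f with hM
  set n := Module.finrank ℚ K with hn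
  have hn1 : 1 ≤ n := Module.finrank_pos
  have hb' : (2 : ℝ) ≤ b := by exact_mod_cast hb
  have hWc : P.coeff W ≠ 0 := by rw [hW]; simpa using h0
  obtain ⟨j0, hj0⟩ := exists_of_coeff b m l c W hWc
  have hM0 : ∀ ψ : K →+* ℂ, ‖em ψ (P.coeff W)‖ ≤ M := by
    intro ψ
    have := sum_coeff_le b f m l c B hb hm hc ψ {W}
    simpa using this
  -- at each embedding
  have key : ∀ φ : K →+* ℂ, ‖em φ (P.coeff W)‖ * (b : ℝ) ^ W / 2 ≤ ‖em φ (P.eval (b : 𝓞 K))‖ := by
    intro φ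
    have hMpos : 0 < M := lt_of_lt_of_le (norm_pos_iff.2 (em_ne_zero φ hWc)) (hM0 φ)
    have h1 := lead_data b f m l c B hb hm hc h0 φ
    rw [← hP, ← hW, ← hM, ← hn] at h1
    have h2 : 2 * M ≤ ‖em φ (P.coeff W)‖ * (b : ℝ) ^ g := by
      have e : M ^ n = M ^ (n - 1) * M := by rw [← pow_succ]; congr 1; omega
      calc 2 * M = 2 * (1 * M) := by ring
        _ ≤ 2 * (‖em φ (P.coeff W)‖ * M ^ (n - 1) * M) := by
            apply mul_le_mul_of_nonneg_left _ (by norm_num)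
            exact mul_le_mul_of_nonneg_right h1 hMpos.le
        _ = ‖em φ (P.coeff W)‖ * (2 * M ^ n) := by rw [e]; ring
        _ ≤ ‖em φ (P.coeff W)‖ * (b : ℝ) ^ g := mul_le_mul_of_nonneg_left hbg (norm_nonneg _)
    -- the lower part
    have hlow : ‖∑ w ∈ Finset.range W, em φ (P.coeff w) * (b : ℂ) ^ w‖ * (b : ℝ) ^ g ≤
        M * (b : ℝ) ^ W := by
      calc ‖∑ w ∈ Finset.range W, em φ (P.coeff w) * (b : ℂ) ^ w‖ * (b : ℝ) ^ g
          ≤ (∑ w ∈ Finset.range W, ‖em φ (P.coeff w)‖ * (b : ℝ) ^ w) * (b : ℝ) ^ g := by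
            refine mul_le_mul_of_nonneg_right ?_ (by positivity)
            refine (norm_sum_le _ _).trans (Finset.sum_le_sum fun w _ => ?_)
            rw [norm_mul, norm_pow, Complex.norm_natCast]
        _ = ∑ w ∈ Finset.range W, ‖em φ (P.coeff w)‖ * ((b : ℝ) ^ w * (b : ℝ) ^ g) := by
            rw [Finset.sum_mul]
            exact Finset.sum_congr rfl fun w _ => by ring
        _ ≤ ∑ w ∈ Finset.range W, ‖em φ (P.coeff w)‖ * (b : ℝ) ^ W := by
            refine Finset.sum_le_sum fun w hw => ?_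
            rw [Finset.mem_range] at hw
            by_cases h : P.coeff w = 0
            · simp [h]
            · obtain ⟨j, hj⟩ := exists_of_coeff b m l c w h
              have h1 := hgap j j0 (by omega)
              refine mul_le_mul_of_nonneg_left ?_ (norm_nonneg _)
              rw [← pow_add]
              exact pow_le_pow_right₀ (by linarith) (by omega)
        _ = (∑ w ∈ Finset.range W, ‖em φ (P.coeff w)‖) * (b : ℝ) ^ W := by rw [Finset.sum_mul]
        _ ≤ M * (b : ℝ) ^ W := mul_le_mul_of_nonneg_right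
            (sum_coeff_le b f m l c B hb hm hc φ _) (by positivity)
    have hlow2 : ‖∑ w ∈ Finset.range W, em φ (P.coeff w) * (b : ℂ) ^ w‖ ≤
        ‖em φ (P.coeff W)‖ * (b : ℝ) ^ W / 2 := by
      have hbg0 : (0 : ℝ) < (b : ℝ) ^ g := by positivity
      refine le_of_mul_le_mul_right (hlow.trans ?_) hbg0
      have h3 := mul_le_mul_of_nonneg_right h2 (show (0 : ℝ) ≤ (b : ℝ) ^ W by positivity)
      have e : ‖em φ (P.coeff W)‖ * (b : ℝ) ^ W / 2 * (b : ℝ) ^ g =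
          ‖em φ (P.coeff W)‖ * (b : ℝ) ^ g * (b : ℝ) ^ W / 2 := by ring
      rw [e]
      linarith
    have hev : em φ (P.eval (b : 𝓞 K)) = ∑ w ∈ Finset.range W, em φ (P.coeff w) * (b : ℂ) ^ w +
        em φ (P.coeff W) * (b : ℂ) ^ W := by
      rw [Polynomial.eval_eq_sum_range, ← hW, map_sum, Finset.sum_range_succ]
      simp only [map_mul, map_pow, em_natCast]
    rw [hev]
    have h4 : ‖em φ (P.coeff W) * (b : ℂ) ^ W‖ = ‖em φ (P.coeff W)‖ * (b : ℝ) ^ W := by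
      rw [norm_mul, norm_pow, Complex.norm_natCast]
    have h5 := norm_sub_le (∑ w ∈ Finset.range W, em φ (P.coeff w) * (b : ℂ) ^ w +
        em φ (P.coeff W) * (b : ℂ) ^ W) (∑ w ∈ Finset.range W, em φ (P.coeff w) * (b : ℂ) ^ w)
    rw [add_sub_cancel_left, h4] at h5
    linarith
  rw [absnorm_prod]
  have hcard : Fintype.card (K →+* ℂ) = n := NumberField.Embeddings.card K ℂ
  have h6 : ∏ φ : K →+* ℂ, (‖em φ (P.coeff W)‖ * (b : ℝ) ^ W / 2) ≤
      ∏ φ : K →+* ℂ, ‖em φ (P.eval (b : 𝓞 K))‖ :=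
    Finset.prod_le_prod (fun _ _ => by positivity) fun φ _ => key φ
  have h7 : ∏ φ : K →+* ℂ, (‖em φ (P.coeff W)‖ * (b : ℝ) ^ W / 2) =
      (∏ φ : K →+* ℂ, ‖em φ (P.coeff W)‖) * ((b : ℝ) ^ W / 2) ^ n := by
    rw [← hcard, ← Finset.card_univ, ← Finset.prod_const, ← Finset.prod_mul_distrib]
    exact Finset.prod_congr rfl fun _ _ => by ring
  rw [h7] at h6
  have h8 : ((b : ℝ) ^ W / 2) ^ n ≤ ∏ φ : K →+* ℂ, ‖em φ (P.eval (b : 𝓞 K))‖ := by
    refine le_trans ?_ h6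
    have := mul_le_mul_of_nonneg_right (one_le_prod hWc) (show (0 : ℝ) ≤ ((b : ℝ) ^ W / 2) ^ n by positivity)
    rw [one_mul] at this
    exact this
  rw [div_pow, ← pow_mul, div_le_iff₀ (by positivity)] at h8
  rw [mul_comm n W, mul_comm ((2 : ℝ) ^ n)]
  exact h8

theorem root : S_ROOT := by
  intro K _ _ r b f g m l c B τ hb hm hc h0 hgap hτ hlt φ ρ hρ
  set P := dig b m l c with hP
  set W := P.natDegree with hW
  set M : ℝ := r * B * (b : ℝ) ^ f with hM
  set n := Module.finrank ℚ K with hn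
  have hn1 : 1 ≤ n := Module.finrank_pos
  have hb' : (2 : ℝ) ≤ b := by exact_mod_cast hb
  by_contra hcon
  push Not at hcon
  have hρ1 : 1 ≤ ‖ρ‖ := by linarith
  have hρ0 : 0 < ‖ρ‖ := by linarith
  have hWc : P.coeff W ≠ 0 := by rw [hW]; simpa using h0
  obtain ⟨j0, hj0⟩ := exists_of_coeff b m l c W hWc
  have hMpos : 0 < M := by
    have h1 := sum_coeff_le b f m l c B hb hm hc φ {W}
    rw [Finset.sum_singleton] at h1
    exact lt_of_lt_of_le (norm_pos_iff.2 (em_ne_zero φ hWc)) h1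
  have h1 := lead_data b f m l c B hb hm hc h0 φ
  rw [← hP, ← hW, ← hM, ← hn] at h1
  have hev : P.eval₂ (em φ) ρ = ∑ w ∈ Finset.range W, em φ (P.coeff w) * ρ ^ w +
      em φ (P.coeff W) * ρ ^ W := by
    rw [Polynomial.eval₂_eq_sum_range, ← hW, Finset.sum_range_succ]
  rw [hev] at hρ
  have h2 : ‖em φ (P.coeff W)‖ * ‖ρ‖ ^ W ≤
      ∑ w ∈ Finset.range W, ‖em φ (P.coeff w)‖ * ‖ρ‖ ^ w := by
    have e : em φ (P.coeff W) * ρ ^ W = - ∑ w ∈ Finset.range W, em φ (P.coeff w) * ρ ^ w :=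
      (neg_eq_of_add_eq_zero_right hρ).symm
    rw [← norm_pow, ← norm_mul, e, norm_neg]
    refine (norm_sum_le _ _).trans (Finset.sum_le_sum fun w _ => ?_)
    rw [norm_mul, norm_pow]
  have h3 : ‖em φ (P.coeff W)‖ * ‖ρ‖ ^ g ≤ M := by
    have h4 : ‖em φ (P.coeff W)‖ * ‖ρ‖ ^ g * ‖ρ‖ ^ W ≤ M * ‖ρ‖ ^ W := by
      calc ‖em φ (P.coeff W)‖ * ‖ρ‖ ^ g * ‖ρ‖ ^ W
          = ‖em φ (P.coeff W)‖ * ‖ρ‖ ^ W * ‖ρ‖ ^ g := by ring
        _ ≤ (∑ w ∈ Finset.range W, ‖em φ (P.coeff w)‖ * ‖ρ‖ ^ w) * ‖ρ‖ ^ g :=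
            mul_le_mul_of_nonneg_right h2 (by positivity)
        _ = ∑ w ∈ Finset.range W, ‖em φ (P.coeff w)‖ * (‖ρ‖ ^ w * ‖ρ‖ ^ g) := by
            rw [Finset.sum_mul]
            exact Finset.sum_congr rfl fun w _ => by ring
        _ ≤ ∑ w ∈ Finset.range W, ‖em φ (P.coeff w)‖ * ‖ρ‖ ^ W := by
            refine Finset.sum_le_sum fun w hw => ?_
            rw [Finset.mem_range] at hw
            by_cases h : P.coeff w = 0
            · simp [h]
            · obtain ⟨j, hj⟩ := exists_of_coeff b m l c w h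
              have h1 := hgap j j0 (by omega)
              refine mul_le_mul_of_nonneg_left ?_ (norm_nonneg _)
              rw [← pow_add]
              exact pow_le_pow_right₀ hρ1 (by omega)
        _ = (∑ w ∈ Finset.range W, ‖em φ (P.coeff w)‖) * ‖ρ‖ ^ W := by rw [Finset.sum_mul]
        _ ≤ M * ‖ρ‖ ^ W := mul_le_mul_of_nonneg_right
            (sum_coeff_le b f m l c B hb hm hc φ _) (by positivity)
    exact le_of_mul_le_mul_right h4 (by positivity)
  have h5 : τ ^ g ≤ ‖ρ‖ ^ g := pow_le_pow_left₀ (by linarith) hcon _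
  have h6 : M ^ n < ‖ρ‖ ^ g := lt_of_lt_of_le hlt h5
  have hpos : 0 < ‖em φ (P.coeff W)‖ := norm_pos_iff.2 (em_ne_zero φ hWc)
  have e : M ^ n = M ^ (n - 1) * M := by rw [← pow_succ]; congr 1; omega
  have h7 : M ≤ ‖em φ (P.coeff W)‖ * M ^ n := by
    calc M = 1 * M := (one_mul _).symm
      _ ≤ ‖em φ (P.coeff W)‖ * M ^ (n - 1) * M := mul_le_mul_of_nonneg_right h1 hMpos.le
      _ = _ := by rw [e]; ring
  have h8 : ‖em φ (P.coeff W)‖ * M ^ n < ‖em φ (P.coeff W)‖ * ‖ρ‖ ^ g :=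
    mul_lt_mul_of_pos_left h6 hpos
  linarith

end Pool.Agent.P8H71.EA
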