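import Pool.Agent.P8H51.EA.Stm3
import Pool.Agent.P8H71.EA.Common

/-!
# Project EAU: the packages UPT, LOT, ROT, CUT
-/

set_option autoImplicit false

namespace Pool.Agent.P8H71.EA

open NumberField Finset Pool.Agent.H458.Sp Pool.Agent.P8H51.EA

/-- package UPT -/
theorem upt : S_UPT := by
  intro K _ θ Q R φ hR
  rw [Polynomial.eval_eq_sum, Polynomial.sum_def, map_sum]
  refine (norm_sum_le _ _).trans ?_
  calc ∑ w ∈ Q.support, ‖em φ (Q.coeff w * θ ^ w)‖
      ≤ ∑ w ∈ Q.support, ‖em φ (Q.coeff w)‖ * max 1 ‖em φ θ‖ ^ Q.natDegree := by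
        refine Finset.sum_le_sum fun w hw => ?_
        rw [map_mul, map_pow, norm_mul, norm_pow]
        refine mul_le_mul_of_nonneg_left ?_ (norm_nonneg _)
        refine (pow_le_pow_left₀ (norm_nonneg _) (le_max_right 1 _) w).trans ?_
        exact pow_le_pow_right₀ (le_max_left _ _) (Polynomial.le_natDegree_of_mem_supp w hw)
    _ = (∑ w ∈ Q.support, ‖em φ (Q.coeff w)‖) * max 1 ‖em φ θ‖ ^ Q.natDegree := by
        rw [Finset.sum_mul]
    _ ≤ R * max 1 ‖em φ θ‖ ^ Q.natDegree :=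
        mul_le_mul_of_nonneg_right hR (pow_nonneg (le_trans zero_le_one (le_max_left _ _)) _)

section

variable {K : Type} [Field K]

/-- the sum without one term -/
theorem eval_split (Q : Polynomial (𝓞 K)) (φ : K →+* ℂ) (x : ℂ) (v : ℕ) (hv : v ∈ Q.support) :
    Q.eval₂ (em φ) x = em φ (Q.coeff v) * x ^ v +
      ∑ w ∈ Q.support.erase v, em φ (Q.coeff w) * x ^ w := by
  rw [Polynomial.eval₂_eq_sum, Polynomial.sum_def, ← Finset.add_sum_erase _ _ hv]

theorem top_bound {Q : Polynomial (𝓞 K)} {R : ℝ} {g : ℕ} (hQ : Gappy R g Q) (φ : K →+* ℂ) (x : ℂ)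
    (hx : 1 ≤ ‖x‖) (hQ0 : Q ≠ 0) :
    ‖∑ w ∈ Q.support.erase Q.natDegree, em φ (Q.coeff w) * x ^ w‖ * ‖x‖ ^ g ≤
      R * ‖x‖ ^ Q.natDegree := by
  have hW : Q.natDegree ∈ Q.support := Polynomial.natDegree_mem_support_of_nonzero hQ0
  calc ‖∑ w ∈ Q.support.erase Q.natDegree, em φ (Q.coeff w) * x ^ w‖ * ‖x‖ ^ g
      ≤ (∑ w ∈ Q.support.erase Q.natDegree, ‖em φ (Q.coeff w)‖ * ‖x‖ ^ w) * ‖x‖ ^ g := by
        refine mul_le_mul_of_nonneg_right ?_ (by positivity)
        refine (norm_sum_le _ _).trans (Finset.sum_le_sum fun w _ => ?_)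
        rw [norm_mul, norm_pow]
    _ = ∑ w ∈ Q.support.erase Q.natDegree, ‖em φ (Q.coeff w)‖ * (‖x‖ ^ w * ‖x‖ ^ g) := by
        rw [Finset.sum_mul]
        exact Finset.sum_congr rfl fun w _ => by ring
    _ ≤ ∑ w ∈ Q.support.erase Q.natDegree, ‖em φ (Q.coeff w)‖ * ‖x‖ ^ Q.natDegree := by
        refine Finset.sum_le_sum fun w hw => ?_
        rw [Finset.mem_erase] at hw
        have h1 : w ≤ Q.natDegree := Polynomial.le_natDegree_of_mem_supp w hw.2
        have h2 := hQ.2 w hw.2 _ hW (lt_of_le_of_ne h1 hw.1)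
        refine mul_le_mul_of_nonneg_left ?_ (norm_nonneg _)
        rw [← pow_add]
        exact pow_le_pow_right₀ hx h2
    _ = (∑ w ∈ Q.support.erase Q.natDegree, ‖em φ (Q.coeff w)‖) * ‖x‖ ^ Q.natDegree := by
        rw [Finset.sum_mul]
    _ ≤ R * ‖x‖ ^ Q.natDegree := by
        refine mul_le_mul_of_nonneg_right ?_ (by positivity)
        exact (Finset.sum_le_sum_of_subset_of_nonneg (Finset.erase_subset _ _)
          (fun _ _ _ => norm_nonneg _)).trans (hQ.1 φ)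

theorem bot_bound {Q : Polynomial (𝓞 K)} {R : ℝ} {g : ℕ} (hQ : Gappy R g Q) (φ : K →+* ℂ) (x : ℂ)
    (hx : ‖x‖ ≤ 1) (v : ℕ) (hv : v ∈ Q.support) (hmin : ∀ w ∈ Q.support, v ≤ w) :
    ‖∑ w ∈ Q.support.erase v, em φ (Q.coeff w) * x ^ w‖ ≤ R * (‖x‖ ^ v * ‖x‖ ^ g) := by
  calc ‖∑ w ∈ Q.support.erase v, em φ (Q.coeff w) * x ^ w‖
      ≤ ∑ w ∈ Q.support.erase v, ‖em φ (Q.coeff w)‖ * (‖x‖ ^ v * ‖x‖ ^ g) := by
        refine (norm_sum_le _ _).trans (Finset.sum_le_sum fun w hw => ?_)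
        rw [Finset.mem_erase] at hw
        rw [norm_mul, norm_pow]
        have h2 := hQ.2 v hv w hw.2 (lt_of_le_of_ne (hmin w hw.2) (Ne.symm hw.1))
        refine mul_le_mul_of_nonneg_left ?_ (norm_nonneg _)
        rw [← pow_add]
        exact pow_le_pow_of_le_one (norm_nonneg _) hx h2
    _ = (∑ w ∈ Q.support.erase v, ‖em φ (Q.coeff w)‖) * (‖x‖ ^ v * ‖x‖ ^ g) := by
        rw [Finset.sum_mul]
    _ ≤ R * (‖x‖ ^ v * ‖x‖ ^ g) := by
        refine mul_le_mul_of_nonneg_right ?_ (by positivity)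
        exact (Finset.sum_le_sum_of_subset_of_nonneg (Finset.erase_subset _ _)
          (fun _ _ _ => norm_nonneg _)).trans (hQ.1 φ)

theorem coeff_le {Q : Polynomial (𝓞 K)} {R : ℝ} {g : ℕ} (hQ : Gappy R g Q) (φ : K →+* ℂ) (v : ℕ)
    (hv : v ∈ Q.support) : ‖em φ (Q.coeff v)‖ ≤ R :=
  (Finset.single_le_sum (f := fun w => ‖em φ (Q.coeff w)‖) (fun _ _ => norm_nonneg _) hv).trans
    (hQ.1 φ)

variable [NumberField K]

/-- lower bound for a coefficient -/
theorem coeff_lower {Q : Polynomial (𝓞 K)} {R : ℝ} {g : ℕ} (hQ : Gappy R g Q) (φ : K →+* ℂ)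
    (v : ℕ) (hv : v ∈ Q.support) :
    1 ≤ ‖em φ (Q.coeff v)‖ * R ^ (Module.finrank ℚ K - 1) :=
  conj_lower (Polynomial.mem_support_iff.1 hv) R (fun ψ => coeff_le hQ ψ v hv) φ

theorem pow_split (R : ℝ) : R ^ (Module.finrank ℚ K) = R ^ (Module.finrank ℚ K - 1) * R := by
  have h : 1 ≤ Module.finrank ℚ K := Module.finrank_pos
  rw [← pow_succ]
  congr 1
  omega

theorem R_nonneg {Q : Polynomial (𝓞 K)} {R : ℝ} {g : ℕ} (hQ : Gappy R g Q) (φ : K →+* ℂ) :
    0 ≤ R := (Finset.sum_nonneg fun _ _ => norm_nonneg _).trans (hQ.1 φ)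

/-- comparison of the radius with a coefficient -/
theorem R_le {Q : Polynomial (𝓞 K)} {R : ℝ} {g : ℕ} (hQ : Gappy R g Q) (φ : K →+* ℂ) (v : ℕ)
    (hv : v ∈ Q.support) : R ≤ ‖em φ (Q.coeff v)‖ * R ^ (Module.finrank ℚ K) := by
  have h1 := coeff_lower hQ φ v hv
  have h2 := mul_le_mul_of_nonneg_right h1 (R_nonneg hQ φ)
  rw [one_mul] at h2
  rw [pow_split, ← mul_assoc]
  exact h2

theorem one_le_R {Q : Polynomial (𝓞 K)} {R : ℝ} {g : ℕ} (hQ : Gappy R g Q) (φ : K →+* ℂ) (v : ℕ)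
    (hv : v ∈ Q.support) : 1 ≤ R := by
  by_contra hR
  push Not at hR
  have h0 := R_nonneg hQ φ
  have h1 := coeff_lower hQ φ v hv
  have h2 : ‖em φ (Q.coeff v)‖ * R ^ (Module.finrank ℚ K - 1) ≤ R * 1 :=
    mul_le_mul (coeff_le hQ φ v hv) (pow_le_one₀ h0 hR.le) (by positivity) h0
  linarith

end

/-- package ROT -/
theorem rot : S_ROT := by
  intro K _ _ Q R τ g hQ0 hQ hτ hR φ ρ hρ0 hρ
  have hρn : 0 < ‖ρ‖ := norm_pos_iff.2 hρ0
  have hτ0 : 0 < τ := by linarith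
  constructor
  · by_contra hcon
    push Not at hcon
    have hρ1 : ‖ρ‖ ≤ 1 := hcon.trans (inv_le_one_of_one_le₀ hτ)
    have hv : Q.natTrailingDegree ∈ Q.support := Polynomial.natTrailingDegree_mem_support_of_nonzero hQ0
    have hmin : ∀ w ∈ Q.support, Q.natTrailingDegree ≤ w := fun w hw =>
      Polynomial.natTrailingDegree_le_of_mem_supp w hw
    have h1 := bot_bound hQ φ ρ hρ1 _ hv hmin
    have h2 := eval_split Q φ ρ _ hv
    rw [hρ] at h2
    have h3 : em φ (Q.coeff Q.natTrailingDegree) * ρ ^ Q.natTrailingDegree =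
        -∑ w ∈ Q.support.erase Q.natTrailingDegree, em φ (Q.coeff w) * ρ ^ w :=
      eq_neg_of_add_eq_zero_left h2.symm
    rw [← norm_neg, ← h3, norm_mul, norm_pow] at h1
    have h4 : ‖em φ (Q.coeff Q.natTrailingDegree)‖ ≤ R * ‖ρ‖ ^ g := by
      have hp : 0 < ‖ρ‖ ^ Q.natTrailingDegree := by positivity
      refine le_of_mul_le_mul_right (h1.trans (le_of_eq ?_)) hp
      ring
    have h5 : ‖ρ‖ ^ g * τ ^ g ≤ 1 := by
      rw [← mul_pow]
      refine pow_le_one₀ (by positivity) ?_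
      have := mul_le_mul_of_nonneg_right hcon hτ0.le
      rwa [inv_mul_cancel₀ hτ0.ne'] at this
    have h6 : ‖em φ (Q.coeff Q.natTrailingDegree)‖ * τ ^ g ≤ R := by
      calc ‖em φ (Q.coeff Q.natTrailingDegree)‖ * τ ^ g ≤ R * ‖ρ‖ ^ g * τ ^ g :=
            mul_le_mul_of_nonneg_right h4 (by positivity)
        _ = R * (‖ρ‖ ^ g * τ ^ g) := by ring
        _ ≤ R * 1 := mul_le_mul_of_nonneg_left h5 (R_nonneg hQ φ)
        _ = R := mul_one R
    have h7 := R_le hQ φ _ hv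
    have hpos : 0 < ‖em φ (Q.coeff Q.natTrailingDegree)‖ :=
      norm_pos_iff.2 (em_ne_zero φ (Polynomial.mem_support_iff.1 hv))
    have h8 := mul_lt_mul_of_pos_left hR hpos
    linarith
  · by_contra hcon
    push Not at hcon
    have hρ1 : 1 ≤ ‖ρ‖ := hτ.trans hcon
    have hv : Q.natDegree ∈ Q.support := Polynomial.natDegree_mem_support_of_nonzero hQ0
    have h1 := top_bound hQ φ ρ hρ1 hQ0
    have h2 := eval_split Q φ ρ _ hv
    rw [hρ] at h2
    have h3 : em φ (Q.coeff Q.natDegree) * ρ ^ Q.natDegree =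
        -∑ w ∈ Q.support.erase Q.natDegree, em φ (Q.coeff w) * ρ ^ w :=
      eq_neg_of_add_eq_zero_left h2.symm
    rw [← norm_neg, ← h3, norm_mul, norm_pow] at h1
    have h4 : ‖em φ (Q.coeff Q.natDegree)‖ * ‖ρ‖ ^ g ≤ R := by
      have hp : 0 < ‖ρ‖ ^ Q.natDegree := by positivity
      refine le_of_mul_le_mul_right (le_trans (le_of_eq ?_) h1) hp
      ring
    have h5 : τ ^ g ≤ ‖ρ‖ ^ g := pow_le_pow_left₀ hτ0.le hcon _
    have h6 : ‖em φ (Q.coeff Q.natDegree)‖ * τ ^ g ≤ R :=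
      (mul_le_mul_of_nonneg_left h5 (norm_nonneg _)).trans h4
    have h7 := R_le hQ φ _ hv
    have hpos : 0 < ‖em φ (Q.coeff Q.natDegree)‖ :=
      norm_pos_iff.2 (em_ne_zero φ (Polynomial.mem_support_iff.1 hv))
    have h8 := mul_lt_mul_of_pos_left hR hpos
    linarith

/-- package LOT -/
theorem lot : S_LOT := by
  intro K _ _ θ t Q R g ht hθ hQ hc hRt
  have ht0 : 0 < t := by linarith
  have hQ0 : Q ≠ 0 := by
    intro h
    rw [h, Polynomial.coeff_zero] at hc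
    exact hc rfl
  have hv0 : 0 ∈ Q.support := Polynomial.mem_support_iff.2 hc
  have hvW : Q.natDegree ∈ Q.support := Polynomial.natDegree_mem_support_of_nonzero hQ0
  -- at each embedding
  have key : ∀ φ : K →+* ℂ, max 1 ‖em φ θ‖ ^ Q.natDegree ≤
      2 * R ^ (Module.finrank ℚ K - 1) * ‖em φ (Q.eval θ)‖ := by
    intro φ
    have hR0 := R_nonneg hQ φ
    have hev : em φ (Q.eval θ) = Q.eval₂ (em φ) (em φ θ) := (Polynomial.eval₂_at_apply _ _).symm
    have h2R : ∀ v ∈ Q.support, 2 * R ≤ ‖em φ (Q.coeff v)‖ * t ^ g := by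
      intro v hv
      have h1 := R_le hQ φ v hv
      calc 2 * R ≤ 2 * (‖em φ (Q.coeff v)‖ * R ^ (Module.finrank ℚ K)) :=
            mul_le_mul_of_nonneg_left h1 (by norm_num)
        _ = ‖em φ (Q.coeff v)‖ * (2 * R ^ (Module.finrank ℚ K)) := by ring
        _ ≤ ‖em φ (Q.coeff v)‖ * t ^ g := mul_le_mul_of_nonneg_left hRt (norm_nonneg _)
    have htg : 0 < t ^ g := by positivity
    rcases hθ φ with h | h
    · -- `‖φ θ‖ = t`
      have hx : 1 ≤ ‖em φ θ‖ := by rw [h]; exact ht.le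
      have h1 := top_bound hQ φ (em φ θ) hx hQ0
      have h2 := eval_split Q φ (em φ θ) _ hvW
      rw [h] at h1
      have h3 : ‖∑ w ∈ Q.support.erase Q.natDegree, em φ (Q.coeff w) * em φ θ ^ w‖ ≤
          ‖em φ (Q.coeff Q.natDegree)‖ * t ^ Q.natDegree / 2 := by
        refine le_of_mul_le_mul_right (h1.trans ?_) htg
        have h4 := mul_le_mul_of_nonneg_right (h2R _ hvW) (show (0 : ℝ) ≤ t ^ Q.natDegree by positivity)
        linarith
      have h5 := norm_sub_le (em φ (Q.eval θ))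
        (∑ w ∈ Q.support.erase Q.natDegree, em φ (Q.coeff w) * em φ θ ^ w)
      rw [hev, h2, add_sub_cancel_right, norm_mul, norm_pow, h, ← h2, ← hev] at h5
      have h6 : ‖em φ (Q.coeff Q.natDegree)‖ * t ^ Q.natDegree ≤ 2 * ‖em φ (Q.eval θ)‖ := by linarith
      have h7 := coeff_lower hQ φ _ hvW
      rw [max_eq_right hx, h]
      calc t ^ Q.natDegree = 1 * t ^ Q.natDegree := (one_mul _).symm
        _ ≤ ‖em φ (Q.coeff Q.natDegree)‖ * R ^ (Module.finrank ℚ K - 1) * t ^ Q.natDegree :=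
            mul_le_mul_of_nonneg_right h7 (by positivity)
        _ = R ^ (Module.finrank ℚ K - 1) * (‖em φ (Q.coeff Q.natDegree)‖ * t ^ Q.natDegree) := by ring
        _ ≤ R ^ (Module.finrank ℚ K - 1) * (2 * ‖em φ (Q.eval θ)‖) :=
            mul_le_mul_of_nonneg_left h6 (by positivity)
        _ = _ := by ring
    · -- `‖φ θ‖ = 1 / t`
      have hx : ‖em φ θ‖ ≤ 1 := by rw [h]; exact inv_le_one_of_one_le₀ ht.le
      have h1 := bot_bound hQ φ (em φ θ) hx 0 hv0 (fun w _ => Nat.zero_le w)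
      have h2 := eval_split Q φ (em φ θ) _ hv0
      rw [h, pow_zero, one_mul] at h1
      rw [pow_zero, mul_one] at h2
      have h3 : ‖∑ w ∈ Q.support.erase 0, em φ (Q.coeff w) * em φ θ ^ w‖ ≤
          ‖em φ (Q.coeff 0)‖ / 2 := by
        refine le_of_mul_le_mul_right (le_trans (mul_le_mul_of_nonneg_right h1 htg.le) ?_) htg
        rw [mul_assoc, ← mul_pow, inv_mul_cancel₀ ht0.ne', one_pow, mul_one]
        have h4 := h2R _ hv0
        linarith
      have h5 := norm_sub_le (em φ (Q.eval θ))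
        (∑ w ∈ Q.support.erase 0, em φ (Q.coeff w) * em φ θ ^ w)
      rw [hev, h2, add_sub_cancel_right, ← h2, ← hev] at h5
      have h6 : ‖em φ (Q.coeff 0)‖ ≤ 2 * ‖em φ (Q.eval θ)‖ := by linarith
      have h7 := coeff_lower hQ φ _ hv0
      rw [max_eq_left hx, one_pow]
      calc (1 : ℝ) ≤ ‖em φ (Q.coeff 0)‖ * R ^ (Module.finrank ℚ K - 1) := h7
        _ ≤ 2 * ‖em φ (Q.eval θ)‖ * R ^ (Module.finrank ℚ K - 1) :=
            mul_le_mul_of_nonneg_right h6 (by positivity)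
        _ = _ := by ring
  have hcard : Fintype.card (K →+* ℂ) = Module.finrank ℚ K := NumberField.Embeddings.card K ℂ
  have hn1 : 0 < Module.finrank ℚ K := Module.finrank_pos
  obtain ⟨φ₀⟩ : Nonempty (K →+* ℂ) := Fintype.card_pos_iff.1 (by rw [hcard]; exact hn1)
  have hR1 : 1 ≤ R := one_le_R hQ φ₀ _ hv0
  rw [absnorm_prod, ← Finset.prod_pow]
  calc ∏ φ : K →+* ℂ, max 1 ‖em φ θ‖ ^ Q.natDegree
      ≤ ∏ φ : K →+* ℂ, (2 * R ^ (Module.finrank ℚ K - 1) * ‖em φ (Q.eval θ)‖) :=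
        Finset.prod_le_prod (fun _ _ => pow_nonneg (le_trans zero_le_one (le_max_left _ _)) _)
          fun φ _ => key φ
    _ = (2 * R ^ (Module.finrank ℚ K - 1)) ^ (Module.finrank ℚ K) *
        ∏ φ : K →+* ℂ, ‖em φ (Q.eval θ)‖ := by
        rw [Finset.prod_mul_distrib, Finset.prod_const, Finset.card_univ, hcard]
    _ ≤ 2 ^ (Module.finrank ℚ K) * R ^ (Module.finrank ℚ K * Module.finrank ℚ K) *
        ∏ φ : K →+* ℂ, ‖em φ (Q.eval θ)‖ := by
        refine mul_le_mul_of_nonneg_right ?_ (Finset.prod_nonneg fun _ _ => norm_nonneg _)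
        rw [mul_pow, ← pow_mul]
        refine mul_le_mul_of_nonneg_left ?_ (by positivity)
        exact pow_le_pow_right₀ hR1 (Nat.mul_le_mul_right _ (Nat.sub_le _ _))

/-- package CUT -/
theorem cut : S_CUT := by
  intro K _ _ ι _ θ t L ht hθ low high g e hdis hS E hlow hhigh hsum
  by_contra hne
  have ht0 : 0 < t := by linarith
  have hcard : Fintype.card (K →+* ℂ) = Module.finrank ℚ K := NumberField.Embeddings.card K ℂ
  have hn1 : 0 < Module.finrank ℚ K := Module.finrank_pos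
  obtain ⟨φ₁⟩ : Nonempty (K →+* ℂ) := Fintype.card_pos_iff.1 (by rw [hcard]; exact hn1)
  obtain ⟨y, hy⟩ : ∃ y : 𝓞 K, y = ∑ i ∈ high, θ ^ (e i - (E + L)) * g i := ⟨_, rfl⟩
  obtain ⟨S, hSd⟩ : ∃ S : ℝ, S = ∑ i ∈ low ∪ high, hs (g i) := ⟨_, rfl⟩
  rw [← hSd] at hS
  have hS0 : 0 ≤ S := by rw [hSd]; exact Finset.sum_nonneg fun i _ => hs_nonneg _
  have h1 : ∑ i ∈ high, θ ^ (e i) * g i = θ ^ (E + L) * y := by
    rw [hy, Finset.mul_sum]
    refine Finset.sum_congr rfl fun i hi => ?_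
    rw [← mul_assoc, ← pow_add, Nat.add_sub_cancel' (hhigh i hi)]
  have h2 : ∑ i ∈ low, θ ^ (e i) * g i = θ ^ (E + L) * (-y) := by
    rw [h1] at hsum
    linear_combination hsum
  have hy0 : y ≠ 0 := by
    intro h0
    rw [h2, h0, neg_zero, mul_zero] at hne
    exact hne rfl
  have hθ0 : θ ≠ 0 := by
    intro h0
    have h3 := hθ φ₁
    rw [h0, map_zero, norm_zero] at h3
    rcases h3 with h | h
    · linarith
    · have := inv_pos.2 ht0
      linarith
  -- the bound of the low part and of `y`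
  have hlowb : ∀ φ : K →+* ℂ, ‖em φ θ‖ = t → ‖em φ y‖ * t ^ L ≤ S := by
    intro φ h
    have h3 : ‖em φ (∑ i ∈ low, θ ^ (e i) * g i)‖ ≤ t ^ E * S := by
      rw [map_sum]
      calc ‖∑ i ∈ low, em φ (θ ^ (e i) * g i)‖ ≤ ∑ i ∈ low, ‖em φ (θ ^ (e i) * g i)‖ :=
            norm_sum_le _ _
        _ ≤ ∑ i ∈ low, t ^ E * hs (g i) := by
            refine Finset.sum_le_sum fun i hi => ?_
            rw [map_mul, map_pow, norm_mul, norm_pow, h]
            exact mul_le_mul (pow_le_pow_right₀ ht.le (hlow i hi)) (norm_em_le φ _) (norm_nonneg _)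
              (by positivity)
        _ = t ^ E * ∑ i ∈ low, hs (g i) := by rw [Finset.mul_sum]
        _ ≤ t ^ E * S := by
            refine mul_le_mul_of_nonneg_left ?_ (by positivity)
            rw [hSd]
            exact Finset.sum_le_sum_of_subset_of_nonneg Finset.subset_union_left
              (fun _ _ _ => hs_nonneg _)
    rw [h2, map_mul, map_pow, norm_mul, norm_pow, h, map_neg, norm_neg, pow_add, mul_assoc] at h3
    have h4 := le_of_mul_le_mul_left h3 (show (0 : ℝ) < t ^ E by positivity)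
    rw [mul_comm]
    exact h4
  have hhighb : ∀ φ : K →+* ℂ, ‖em φ θ‖ = t⁻¹ → ‖em φ y‖ ≤ S := by
    intro φ h
    rw [hy, map_sum]
    calc ‖∑ i ∈ high, em φ (θ ^ (e i - (E + L)) * g i)‖ ≤
          ∑ i ∈ high, ‖em φ (θ ^ (e i - (E + L)) * g i)‖ := norm_sum_le _ _
      _ ≤ ∑ i ∈ high, hs (g i) := by
          refine Finset.sum_le_sum fun i _ => ?_
          rw [map_mul, map_pow, norm_mul, norm_pow, h]
          have h5 : (t⁻¹) ^ (e i - (E + L)) ≤ 1 :=
            pow_le_one₀ (inv_nonneg.2 ht0.le) (inv_le_one_of_one_le₀ ht.le)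
          calc (t⁻¹) ^ (e i - (E + L)) * ‖em φ (g i)‖ ≤ 1 * hs (g i) :=
                mul_le_mul h5 (norm_em_le φ _) (norm_nonneg _) zero_le_one
            _ = hs (g i) := one_mul _
      _ ≤ S := by
          rw [hSd]
          exact Finset.sum_le_sum_of_subset_of_nonneg Finset.subset_union_right
            (fun _ _ _ => hs_nonneg _)
  have hall : ∀ φ : K →+* ℂ, ‖em φ y‖ ≤ S := by
    intro φ
    rcases hθ φ with h | h
    · refine le_trans ?_ (hlowb φ h)
      exact le_mul_of_one_le_right (norm_nonneg _) (one_le_pow₀ ht.le)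
    · exact hhighb φ h
  -- an embedding of the first kind
  obtain ⟨φ₀, hφ₀⟩ : ∃ φ₀ : K →+* ℂ, ‖em φ₀ θ‖ = t := by
    by_contra hno
    push Not at hno
    have h5 := one_le_prod hθ0
    have h6 : ∏ φ : K →+* ℂ, ‖em φ θ‖ = (t⁻¹) ^ (Module.finrank ℚ K) := by
      rw [← hcard, ← Finset.card_univ, ← Finset.prod_const]
      exact Finset.prod_congr rfl fun φ _ => (hθ φ).resolve_left (hno φ)
    rw [h6] at h5
    have h7 : (t⁻¹) ^ (Module.finrank ℚ K) < 1 :=
      pow_lt_one₀ (inv_nonneg.2 ht0.le) (inv_lt_one_of_one_lt₀ ht) hn1.ne'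
    linarith
  have h8 := conj_lower hy0 S hall φ₀
  have h9 : t ^ L ≤ S ^ (Module.finrank ℚ K) := by
    calc t ^ L = 1 * t ^ L := (one_mul _).symm
      _ ≤ ‖em φ₀ y‖ * S ^ (Module.finrank ℚ K - 1) * t ^ L :=
          mul_le_mul_of_nonneg_right h8 (by positivity)
      _ = S ^ (Module.finrank ℚ K - 1) * (‖em φ₀ y‖ * t ^ L) := by ring
      _ ≤ S ^ (Module.finrank ℚ K - 1) * S :=
          mul_le_mul_of_nonneg_left (hlowb φ₀ hφ₀) (by positivity)
      _ = S ^ (Module.finrank ℚ K) := (pow_split (K := K) S).symm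
  linarith

end Pool.Agent.P8H71.EA
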