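import Pool.Agent.P8H51.EA.Stm

/-!
# Project EA: the package MASN

`masn_of` needs the inequality of the library theorem `Pool.Agent.Y954.U557.bmg_holds ℂ` with `nz P`
replaced by its upper bound `(∏ i, P i).roots.toFinset.card + 1`.
-/

set_option autoImplicit false

namespace Pool.Agent.P8H71.EA

open Finset Pool.Agent.P8H51.EA Polynomial

open Classical in
/-- the inequality of Brownawell, Masser and Mason -/
def Bmg : Prop :=
  ∀ (n : ℕ) (P : Fin n → ℂ[X]) (D : ℕ), (∀ i, P i ≠ 0) → (∀ i, (P i).Splits) →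
    (∀ r : ℂ, ∃ i, (P i).eval r ≠ 0) → ∑ i, P i = 0 →
    (∀ s : Finset (Fin n), s.Nonempty → s ≠ Finset.univ → ∑ i ∈ s, P i ≠ 0) →
    (∀ i, (P i).natDegree ≤ D) → (∃ i, (P i).natDegree = D) → 1 ≤ D →
    2 * D + 2 * ((n - 1) * (n - 2) * max 1 (n - 3)) ≤
      (n - 1) * (n - 2) * max 1 (n - 3) * ((∏ i, P i).roots.toFinset.card + 1)

theorem masn_of (hbmg : Bmg) : S_MASN := by
  classical
  intro N p A P hN hA hP hsum hsub hzero hcop σ
  -- the maximal degree
  obtain ⟨σ₁, -, hσ₁⟩ := Finset.exists_max_image (Finset.univ : Finset (Fin N)) (fun σ => (A σ).natDegree)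
    ⟨σ, Finset.mem_univ _⟩
  obtain ⟨D, hD⟩ : ∃ D, D = (A σ₁).natDegree := ⟨_, rfl⟩
  rw [← hD] at hσ₁
  have hle : ∀ σ, (A σ).natDegree ≤ D := fun σ => hσ₁ σ (Finset.mem_univ _)
  rcases Nat.eq_zero_or_pos D with h0 | h1
  · have := hle σ
    rw [h0] at this
    omega
  have hb := hbmg N A D hA (fun i => IsAlgClosed.splits _) hcop hsum hsub hle ⟨σ₁, hD.symm⟩ h1
  -- the number of the zeros
  have hnz : (∏ i, A i).roots.toFinset.card + 1 ≤ 2 + ∑ i, (P i).natDegree := by
    have h2 : (∏ i, A i).roots.toFinset ⊆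
        insert 0 (Finset.univ.biUnion fun i => (P i).roots.toFinset) := by
      intro ρ hρ
      rw [Multiset.mem_toFinset, mem_roots', IsRoot.def, eval_prod, Finset.prod_eq_zero_iff] at hρ
      obtain ⟨-, τ, -, hτ⟩ := hρ
      rcases hzero τ ρ hτ with h | ⟨i, hi⟩
      · rw [h]; exact Finset.mem_insert_self _ _
      · apply Finset.mem_insert_of_mem
        rw [Finset.mem_biUnion]
        exact ⟨i, Finset.mem_univ _, by rw [Multiset.mem_toFinset, mem_roots (hP i)]; exact hi⟩
    have h3 : (∏ i, A i).roots.toFinset.card ≤ 1 + ∑ i, (P i).natDegree := by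
      refine (Finset.card_le_card h2).trans ((Finset.card_insert_le _ _).trans ?_)
      rw [add_comm]
      refine Nat.add_le_add_left (Finset.card_biUnion_le.trans (Finset.sum_le_sum fun i _ => ?_)) 1
      exact (Multiset.toFinset_card_le _).trans (card_roots' _)
    omega
  -- arithmetic
  have heven : Even ((N - 1) * (N - 2)) := by
    have := Nat.even_mul_pred_self (N - 1)
    rwa [show N - 1 - 1 = N - 2 by omega] at this
  obtain ⟨e, he⟩ := heven
  have he2 : (N - 1) * (N - 2) / 2 = e := by rw [he]; omega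
  rw [he2]
  rw [he] at hb
  generalize max 1 (N - 3) = M at *
  generalize (∏ i, A i).roots.toFinset.card + 1 = z at *
  generalize ∑ i, (P i).natDegree = S at *
  have h4 : (e + e) * M * z ≤ (e + e) * M * (2 + S) := Nat.mul_le_mul_left _ hnz
  have h5 : D ≤ e * M * S := by
    have e1 : (e + e) * M * (2 + S) = 2 * ((e + e) * M) + 2 * (e * M * S) := by ring
    rw [e1] at h4
    omega
  exact (hle σ).trans h5

end Pool.Agent.P8H71.EA
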