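import Pool.Agent.P8H51.EA.Stm3
import Pool.Agent.P8H71.EA.Common

/-!
# Project EAU: the package GCT
-/

set_option autoImplicit false

namespace Pool.Agent.P8H71.EA

open NumberField Finset Pool.Agent.H458.Sp Pool.Agent.P8H51.EA Polynomial

/-- the norm as a product of conjugates -/
theorem norm_bound {K L : Type} [Field K] [CharZero K] [Field L] [Algebra K L]
    [FiniteDimensional K L] (x : L) (φ' : K →+* ℂ) (r : ℝ)
    (h : ∀ ψ : L →+* ℂ, ψ.comp (algebraMap K L) = φ' → ‖ψ x‖ ≤ r) :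
    ‖φ' (Algebra.norm K x)‖ ≤ r ^ Module.finrank K L := by
  letI : Algebra K ℂ := φ'.toAlgebra
  have h1 := Algebra.norm_eq_prod_embeddings K ℂ x
  have h2 : algebraMap K ℂ (Algebra.norm K x) = φ' (Algebra.norm K x) := rfl
  rw [← h2, h1, norm_prod, ← AlgHom.card K L ℂ, ← Finset.card_univ, ← Finset.prod_const]
  exact Finset.prod_le_prod (fun _ _ => norm_nonneg _) fun σ _ =>
    h σ.toRingHom (RingHom.ext fun z => σ.commutes z)

/-- the product formula for an integral element of an extension -/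
theorem gct_core {K L : Type} [Field K] [NumberField K] [Field L] [Algebra K L]
    [FiniteDimensional K L] (x : L) (hx : IsIntegral ℤ x) (hx0 : x ≠ 0) (δ : (K →+* ℂ) → ℝ)
    (hδ : ∀ φ, 0 < δ φ) (h : ∀ ψ : L →+* ℂ, ‖ψ x‖ ≤ (δ (ψ.comp (algebraMap K L)))⁻¹) :
    ∏ φ, δ φ ≤ 1 := by
  have hint : IsIntegral ℤ (Algebra.norm K x) := Algebra.isIntegral_norm K hx
  obtain ⟨a, ha⟩ : ∃ a : 𝓞 K, (algebraMap (𝓞 K) K a) = Algebra.norm K x := ⟨⟨_, hint⟩, rfl⟩
  have ha0 : a ≠ 0 := by
    intro h0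
    rw [h0, map_zero] at ha
    exact (Algebra.norm_ne_zero_iff.2 hx0) ha.symm
  have h1 := one_le_prod ha0
  have h2 : ∀ φ : K →+* ℂ, ‖em φ a‖ ≤ (δ φ)⁻¹ ^ Module.finrank K L := by
    intro φ
    have e : em φ a = φ (Algebra.norm K x) := by
      rw [← ha]
      rfl
    rw [e]
    refine norm_bound x φ _ (fun ψ hψ => ?_)
    have := h ψ
    rwa [hψ] at this
  have h3 : ∏ φ : K →+* ℂ, ‖em φ a‖ ≤ (∏ φ, δ φ)⁻¹ ^ Module.finrank K L := by
    rw [← Finset.prod_inv_distrib, ← Finset.prod_pow]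
    exact Finset.prod_le_prod (fun _ _ => norm_nonneg _) fun φ _ => h2 φ
  by_contra hcon
  push Not at hcon
  have h4 : (∏ φ, δ φ)⁻¹ ^ Module.finrank K L < 1 :=
    pow_lt_one₀ (inv_nonneg.2 (by linarith)) (inv_lt_one_of_one_lt₀ hcon)
      (Module.finrank_pos (R := K) (M := L)).ne'
  linarith

/-- package GCT -/
theorem gct : S_GCT := by
  intro K _ _ N A c θ σ₀ δ hδ hδ1 hsum hsmall φ ρ hρ0 hρ
  -- the polynomial `F (X) = ∑ c σ A σ (θ - X)`
  set F : Polynomial (𝓞 K) := ∑ σ, C (c σ) * (A σ).comp (C θ - X) with hF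
  have hF0 : F.coeff 0 = 1 := by
    rw [coeff_zero_eq_eval_zero, hF, eval_finsetSum, ← hsum]
    refine Finset.sum_congr rfl fun σ _ => ?_
    simp
  have hcomp : ∀ (ψ : 𝓞 K →+* ℂ) (z : ℂ), F.eval₂ ψ z = ∑ σ, ψ (c σ) * (A σ).eval₂ ψ (ψ θ - z) := by
    intro ψ z
    rw [hF, eval₂_finsetSum]
    refine Finset.sum_congr rfl fun σ _ => ?_
    rw [eval₂_mul, eval₂_C, eval₂_comp]
    simp
  have hFz : F.eval₂ (em φ) (em φ θ - ρ) = 0 := by
    rw [hcomp]
    refine Finset.sum_eq_zero fun σ _ => ?_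
    rw [sub_sub_cancel, hρ σ, mul_zero]
  set s : ℂ := em φ θ - ρ with hs
  have hρlt := hsmall φ ρ hρ0 (hρ σ₀)
  have hs0 : s ≠ 0 := by
    intro h
    rw [← hs, h, norm_zero] at hρlt
    linarith [hδ φ]
  -- `y = 1 / s` is an algebraic integer
  set y : ℂ := s⁻¹ with hy
  have hy0 : y ≠ 0 := inv_ne_zero hs0
  have hyint : IsIntegral ℤ y := by
    letI : Algebra (𝓞 K) ℂ := (em φ).toAlgebra
    have h1 : IsIntegral (𝓞 K) y := by
      refine ⟨F.reverse, ?_, ?_⟩
      · rw [Monic, reverse_leadingCoeff, trailingCoeff]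
        have : F.natTrailingDegree = 0 := by
          rw [natTrailingDegree_eq_zero]
          right
          rw [hF0]
          exact one_ne_zero
        rw [this, hF0]
      · haveI : Invertible s := invertibleOfNonzero hs0
        have := (eval₂_reverse_eq_zero_iff (em φ) s F).2 hFz
        rw [invOf_eq_inv] at this
        exact this
    exact isIntegral_trans y h1
  -- the field generated by `y`
  letI : Algebra K ℂ := φ.toAlgebra
  have hyK : IsIntegral K y := hyint.tower_top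
  haveI : FiniteDimensional K (IntermediateField.adjoin K {y}) :=
    IntermediateField.adjoin.finiteDimensional hyK
  obtain ⟨x, hx⟩ : ∃ x : IntermediateField.adjoin K {y}, (x : ℂ) = y :=
    ⟨⟨y, IntermediateField.mem_adjoin_simple_self K y⟩, rfl⟩
  have hxint : IsIntegral ℤ x := by
    refine (isIntegral_algebraMap_iff (R := ℤ) (A := IntermediateField.adjoin K {y}) (B := ℂ)
      (algebraMap (IntermediateField.adjoin K {y}) ℂ).injective).1 ?_
    have e : algebraMap (IntermediateField.adjoin K {y}) ℂ x = y := hx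
    rw [e]
    exact hyint
  have hx0 : x ≠ 0 := by
    intro h
    rw [h] at hx
    exact hy0 hx.symm
  refine absurd (gct_core x hxint hx0 δ hδ fun ψ => ?_) (not_le.2 hδ1)
  obtain ⟨φ', hφ'⟩ : ∃ φ' : K →+* ℂ, φ' = ψ.comp (algebraMap K (IntermediateField.adjoin K {y})) :=
    ⟨_, rfl⟩
  rw [← hφ']
  obtain ⟨ρL, hρL⟩ : ∃ ρL : IntermediateField.adjoin K {y},
      ρL = algebraMap K (IntermediateField.adjoin K {y}) (algebraMap (𝓞 K) K θ) - x⁻¹ := ⟨_, rfl⟩
  have hρLc : algebraMap (IntermediateField.adjoin K {y}) ℂ ρL = ρ := by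
    rw [hρL, map_sub, map_inv₀]
    have e1 : algebraMap (IntermediateField.adjoin K {y}) ℂ x = y := hx
    have e2 : algebraMap (IntermediateField.adjoin K {y}) ℂ
        (algebraMap K (IntermediateField.adjoin K {y}) (algebraMap (𝓞 K) K θ)) = em φ θ := rfl
    rw [e1, e2, hy, inv_inv, hs]
    ring
  have hinj : Function.Injective (algebraMap (IntermediateField.adjoin K {y}) ℂ) :=
    (algebraMap (IntermediateField.adjoin K {y}) ℂ).injective
  have hz : (A σ₀).eval₂ ((algebraMap K (IntermediateField.adjoin K {y})).comp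
      (algebraMap (𝓞 K) K)) ρL = 0 := by
    apply hinj
    rw [map_zero, hom_eval₂, hρLc]
    exact hρ σ₀
  have hz' : (A σ₀).eval₂ (em φ') (ψ ρL) = 0 := by
    have := congrArg ψ hz
    rw [map_zero, hom_eval₂] at this
    rw [hφ']
    exact this
  have hρL0 : ρL ≠ 0 := by
    intro h
    rw [h, map_zero] at hρLc
    exact hρ0 hρLc.symm
  have h1 := hsmall φ' (ψ ρL) ((map_ne_zero ψ).2 hρL0) hz'
  have e3 : em φ' θ - ψ ρL = (ψ x)⁻¹ := by
    have e4 : em φ' θ = ψ (algebraMap K (IntermediateField.adjoin K {y}) (algebraMap (𝓞 K) K θ)) := by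
      rw [hφ']
      rfl
    rw [e4, hρL, map_sub, map_inv₀]
    ring
  rw [e3, norm_inv] at h1
  have hψx : 0 < ‖ψ x‖ := norm_pos_iff.2 ((map_ne_zero ψ).2 hx0)
  rwa [le_inv_comm₀ hψx (hδ φ')]

end Pool.Agent.P8H71.EA
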