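import Pool.Agent.P8H71.EA.Gcdk
import Pool.Agent.P8H51.EA.Stm2

/-!
# Project EA: the package GCDQ
-/

set_option autoImplicit false

namespace Pool.Agent.P8H71.EA

open NumberField Finset Pool.Agent.H458.Sp Pool.Agent.P8H51.EA Polynomial

theorem gcdq : S_GCDQ := by
  intro K _ _ N A c β q σ₀ hq hsum hsmall φ ρ hρ
  have hqC : (q : ℂ) ≠ 0 := by exact_mod_cast hq.ne'
  have hqR : (0 : ℝ) < q := by exact_mod_cast hq
  -- the polynomial `F (X) = ∑ c σ A σ (β - X)`
  set F : Polynomial (𝓞 K) := ∑ σ, C (c σ) * (A σ).comp (C (β : 𝓞 K) - X) with hF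
  have hF0 : F.coeff 0 = (q : 𝓞 K) := by
    rw [coeff_zero_eq_eval_zero, hF, eval_finsetSum, ← hsum]
    refine Finset.sum_congr rfl fun σ _ => ?_
    simp
  have hcomp : ∀ (ψ : 𝓞 K →+* ℂ) (z : ℂ), F.eval₂ ψ z = ∑ σ, ψ (c σ) * (A σ).eval₂ ψ (β - z) := by
    intro ψ z
    rw [hF, eval₂_finsetSum]
    refine Finset.sum_congr rfl fun σ _ => ?_
    rw [eval₂_mul, eval₂_C, eval₂_comp]
    simp
  have hFz : F.eval₂ (em φ) (β - ρ) = 0 := by
    rw [hcomp]
    refine Finset.sum_eq_zero fun σ _ => ?_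
    rw [sub_sub_cancel, hρ σ, mul_zero]
  set s : ℂ := β - ρ with hs
  have hρlt := hsmall φ ρ (hρ σ₀)
  have hsnorm : (q : ℝ) < ‖s‖ := by
    have h1 : (β : ℝ) - ‖ρ‖ ≤ ‖s‖ := by
      have := norm_sub_norm_le (β : ℂ) ρ
      rw [Complex.norm_natCast] at this
      exact this
    linarith
  have hs0 : s ≠ 0 := by
    intro h; rw [h, norm_zero] at hsnorm; linarith
  -- `y = q / s` is an algebraic integer
  set y : ℂ := q * s⁻¹ with hy
  have hy0 : y ≠ 0 := mul_ne_zero hqC (inv_ne_zero hs0)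
  have hsy : s = q * y⁻¹ := by rw [hy]; field_simp
  have hyint : IsIntegral ℤ y := by
    letI : Algebra (𝓞 K) ℂ := (em φ).toAlgebra
    have h1 : IsIntegral (𝓞 K) y := by
      have hlead : F.reverse.leadingCoeff = (q : 𝓞 K) := by
        rw [reverse_leadingCoeff, trailingCoeff]
        have : F.natTrailingDegree = 0 := by
          rw [natTrailingDegree_eq_zero]
          right
          rw [hF0]
          exact_mod_cast hq.ne'
        rw [this, hF0]
      have hinv : Invertible s := invertibleOfNonzero hs0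
      have h2 := (eval₂_reverse_eq_zero_iff (em φ) s F).2 hFz
      rw [invOf_eq_inv] at h2
      have h3 := (em φ).isIntegralElem_leadingCoeff_mul F.reverse s⁻¹ h2
      rw [hlead, em_natCast] at h3
      exact h3
    exact isIntegral_trans y h1
  obtain ⟨y', hy'root, hy'1⟩ := exists_conj_ge y hyint hy0
  -- a homomorphism of the algebraic numbers
  obtain ⟨E, hE⟩ : ∃ E : IntermediateField ℚ ℂ, E = algebraicClosure ℚ ℂ := ⟨_, rfl⟩
  have hEalg : Algebra.IsAlgebraic ℚ E := by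
    subst hE
    exact ⟨fun x => IntermediateField.isAlgebraic_iff.mpr (mem_algebraicClosure_iff.1 x.2)⟩
  have hEint : Algebra.IsIntegral ℚ E := hEalg.isIntegral
  have halg : ∀ x : ℂ, IsIntegral ℚ x → x ∈ E := fun x hx => by
    rw [hE]
    exact mem_algebraicClosure_iff.2 hx.isAlgebraic
  have hyE : y ∈ E := halg y hyint.tower_top
  have hsE : s ∈ E := by
    rw [hsy]
    exact E.mul_mem (natCast_mem E q) (E.inv_mem hyE)
  have hφE : ∀ x : K, φ x ∈ E := fun x =>
    halg _ ((Algebra.IsIntegral.isIntegral (R := ℚ) x).map φ.toRatAlgHom)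
  obtain ⟨ψ, hψ⟩ := IntermediateField.exists_algHom_of_splits_of_aeval (F := ℚ) (E := E) (K := ℂ)
    (fun z => ⟨Algebra.IsIntegral.isIntegral z, IsAlgClosed.splits _⟩) (x := ⟨y, hyE⟩) (y := y') (by
      rw [← hy'root]
      congr 1
      exact IntermediateField.minpoly_eq (⟨y, hyE⟩ : E))
  -- the embedding into `E` and the conjugate embedding
  let φE : K →+* E := φ.codRestrict E hφE
  let φ' : K →+* ℂ := (ψ : E →+* ℂ).comp φE
  let ρE : E := (β : E) - (q : E) * (⟨y, hyE⟩ : E)⁻¹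
  have hρE : (ρE : ℂ) = ρ := by
    show ((β : E) : ℂ) - ((q : E) : ℂ) * ((⟨y, hyE⟩ : E)⁻¹ : E) = ρ
    push_cast
    rw [← hsy, hs]
    ring
  have hzE : (A σ₀).eval₂ (φE.comp (algebraMap (𝓞 K) K)) ρE = 0 := by
    have hinj : Function.Injective (algebraMap E ℂ) := (algebraMap E ℂ).injective
    apply hinj
    rw [map_zero, hom_eval₂]
    have e1 : (algebraMap E ℂ).comp (φE.comp (algebraMap (𝓞 K) K)) = em φ := by
      ext x; rfl
    have e2 : (algebraMap E ℂ) ρE = ρ := hρE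
    rw [e1, e2]
    exact hρ σ₀
  have hz' : (A σ₀).eval₂ (em φ') (ψ ρE) = 0 := by
    have := congrArg (ψ : E →+* ℂ) hzE
    rw [map_zero, hom_eval₂] at this
    exact this
  have hlt := hsmall φ' (ψ ρE) hz'
  have hψρ : ψ ρE = β - q * y'⁻¹ := by
    show ψ ((β : E) - (q : E) * (⟨y, hyE⟩ : E)⁻¹) = _
    rw [map_sub, map_mul, map_natCast, map_natCast, map_inv₀, hψ]
  have h1 : (β : ℝ) - ‖q * y'⁻¹‖ ≤ ‖ψ ρE‖ := by
    rw [hψρ]
    have := norm_sub_norm_le (β : ℂ) (q * y'⁻¹)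
    rw [Complex.norm_natCast] at this
    exact this
  have h2 : ‖q * y'⁻¹‖ ≤ q := by
    rw [norm_mul, norm_inv, Complex.norm_natCast]
    exact mul_le_of_le_one_right hqR.le (inv_le_one_of_one_le₀ hy'1)
  linarith

end Pool.Agent.P8H71.EA
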