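import Pool.Agent.P8H51.EA.Stm4
import Pool.Agent.P8H51.EA.Ht

/-!
# Project EF: the package JHT
-/

set_option autoImplicit false

namespace Pool.Agent.P8H71.EA

open NumberField Finset Pool.Agent.H458.Sp Pool.Agent.P8H51.EA

/-- package JHT -/
theorem jht : S_JHT := by
  intro K _ _ a b h0
  obtain ⟨y, hy⟩ : ∃ y : 𝓞 K, y = 4 * a ^ 3 + 27 * b ^ 2 := ⟨_, rfl⟩
  obtain ⟨x, hx⟩ : ∃ x : 𝓞 K, x = 6912 * a ^ 3 := ⟨_, rfl⟩
  rw [← hy] at h0 ⊢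
  have e1 : (6912 * (a : K) ^ 3 : K) = (x : K) := by rw [hx]; push_cast; rfl
  have e2 : (4 * (a : K) ^ 3 + 27 * (b : K) ^ 2 : K) = (y : K) := by rw [hy]; push_cast; rfl
  rw [e1, e2, Height.logHeight₁_eq_log_mulHeight₁, Height.mulHeight₁_div_eq_mulHeight]
  have hA : (![x, y] : Fin 2 → 𝓞 K) ≠ 0 := by
    intro h
    apply h0
    have := congrFun h 1
    simpa using this
  have h1 := mulHeight_le ![x, y] hA
  have e3 : (fun σ => ((![x, y] : Fin 2 → 𝓞 K) σ : K)) = ![(x : K), (y : K)] := by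
    funext σ
    fin_cases σ <;> rfl
  rw [e3] at h1
  -- the bound at each embedding
  have hbd : ∀ φ : K →+* ℂ, BddAbove (Set.range fun σ : Fin 3 =>
      ‖em φ ((![4 * a ^ 3, 27 * b ^ 2, -y] : Fin 3 → 𝓞 K) σ)‖) := fun φ => Set.finite_range _ |>.bddAbove
  have hpos : ∀ φ : K →+* ℂ, 0 < ⨆ σ : Fin 3, ‖em φ ((![4 * a ^ 3, 27 * b ^ 2, -y] : Fin 3 → 𝓞 K) σ)‖ := by
    intro φ
    have h3 := le_ciSup (hbd φ) 2
    have h4 : 0 < ‖em φ ((![4 * a ^ 3, 27 * b ^ 2, -y] : Fin 3 → 𝓞 K) 2)‖ := by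
      have e4 : (![4 * a ^ 3, 27 * b ^ 2, -y] : Fin 3 → 𝓞 K) 2 = -y := rfl
      rw [e4, norm_pos_iff]
      intro h5
      have h6 : (φ (algebraMap (𝓞 K) K (-y))) = 0 := h5
      rw [map_eq_zero, RingOfIntegers.coe_eq_zero_iff, neg_eq_zero] at h6
      exact h0 h6
    exact lt_of_lt_of_le h4 h3
  have h2 : ∀ φ : K →+* ℂ, ⨆ σ, ‖em φ ((![x, y] : Fin 2 → 𝓞 K) σ)‖ ≤
      1728 * ⨆ σ : Fin 3, ‖em φ ((![4 * a ^ 3, 27 * b ^ 2, -y] : Fin 3 → 𝓞 K) σ)‖ := by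
    intro φ
    refine ciSup_le fun σ => ?_
    fin_cases σ
    · change ‖em φ x‖ ≤ _
      have h3 := le_ciSup (hbd φ) 0
      change ‖em φ (4 * a ^ 3)‖ ≤ _ at h3
      have e5 : x = 1728 * (4 * a ^ 3) := by rw [hx]; ring
      rw [e5, map_mul, norm_mul]
      have e6 : ‖em φ (1728 : 𝓞 K)‖ = 1728 := by
        rw [map_ofNat]
        simp
      rw [e6]
      exact mul_le_mul_of_nonneg_left h3 (by norm_num)
    · change ‖em φ y‖ ≤ _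
      have h3 := le_ciSup (hbd φ) 2
      change ‖em φ (-y)‖ ≤ _ at h3
      rw [map_neg, norm_neg] at h3
      have := hpos φ
      linarith
  have h3 : ∏ φ : K →+* ℂ, ⨆ σ, ‖em φ ((![x, y] : Fin 2 → 𝓞 K) σ)‖ ≤
      ∏ φ : K →+* ℂ, (1728 * ⨆ σ : Fin 3, ‖em φ ((![4 * a ^ 3, 27 * b ^ 2, -y] : Fin 3 → 𝓞 K) σ)‖) :=
    Finset.prod_le_prod (fun φ _ => Real.iSup_nonneg fun _ => norm_nonneg _) fun φ _ => h2 φ
  rw [Finset.prod_mul_distrib, Finset.prod_const, Finset.card_univ, NumberField.Embeddings.card K ℂ] at h3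
  have hP : 0 < ∏ φ : K →+* ℂ, ⨆ σ : Fin 3, ‖em φ ((![4 * a ^ 3, 27 * b ^ 2, -y] : Fin 3 → 𝓞 K) σ)‖ :=
    Finset.prod_pos fun φ _ => hpos φ
  have h4 := Real.log_le_log (Height.mulHeight_pos _) (h1.trans h3)
  rw [Real.log_mul (by positivity) hP.ne', Real.log_pow] at h4
  linarith

end Pool.Agent.P8H71.EA
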