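import Pool.Agent.P8H71.EA.Common

/-!
# Project EA: the package GCDK
-/

set_option autoImplicit false

namespace Pool.Agent.P8H71.EA

open NumberField Finset Pool.Agent.H458.Sp Pool.Agent.P8H51.EA Polynomial

/-- the product of the roots of the minimal polynomial of a nonzero algebraic integer -/
theorem exists_conj_ge (y : ℂ) (hy : IsIntegral ℤ y) (hy0 : y ≠ 0) :
    ∃ y' : ℂ, (Polynomial.aeval y' (minpoly ℚ y) = 0) ∧ 1 ≤ ‖y'‖ := by
  by_contra hno
  push Not at hno
  have hyQ : IsIntegral ℚ y := hy.tower_top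
  have hmin : minpoly ℚ y = (minpoly ℤ y).map (algebraMap ℤ ℚ) :=
    minpoly.isIntegrallyClosed_eq_field_fractions' ℚ hy
  set p := (minpoly ℤ y).map (algebraMap ℤ ℂ) with hp
  have hsplit : p.Splits := IsAlgClosed.splits p
  have hmonic : p.Monic := (minpoly.monic hy).map _
  have h1 := hsplit.coeff_zero_eq_prod_roots_of_monic hmonic
  have hc0 : (minpoly ℤ y).coeff 0 ≠ 0 := by
    intro h0
    have := minpoly.coeff_zero_ne_zero hyQ hy0
    rw [hmin, coeff_map, h0, map_zero] at this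
    exact this rfl
  have h2 : (1 : ℝ) ≤ ‖p.coeff 0‖ := by
    rw [hp, coeff_map]
    have : ‖(algebraMap ℤ ℂ) ((minpoly ℤ y).coeff 0)‖ = |(((minpoly ℤ y).coeff 0 : ℤ) : ℝ)| := by
      rw [← Complex.norm_intCast]; rfl
    rw [this]
    exact_mod_cast Int.one_le_abs hc0
  have hroot : ∀ z ∈ p.roots, ‖z‖ < 1 := by
    intro z hz
    apply hno
    rw [mem_roots hmonic.ne_zero, IsRoot.def, hp, eval_map] at hz
    rw [hmin, aeval_def, eval₂_map]
    have e : (algebraMap ℚ ℂ).comp (algebraMap ℤ ℚ) = algebraMap ℤ ℂ := RingHom.ext_int _ _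
    rw [e]
    exact hz
  have hne : p.roots ≠ 0 := by
    intro h0
    have hmem : y ∈ p.roots := by
      rw [mem_roots hmonic.ne_zero, IsRoot.def, hp, eval_map]
      exact minpoly.aeval ℤ y
    rw [h0] at hmem
    simp at hmem
  have h3 : ‖p.coeff 0‖ < 1 := by
    rw [h1, norm_mul, norm_pow, norm_neg, norm_one, one_pow, one_mul]
    have h4 : ∀ s : Multiset ℂ, s ≠ 0 → (∀ z ∈ s, ‖z‖ < 1) → ‖s.prod‖ < 1 := by
      intro s
      induction s using Multiset.induction_on with
      | empty => intro h; exact absurd rfl h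
      | cons a t ih =>
        intro _ hs
        rw [Multiset.prod_cons, norm_mul]
        have ha : ‖a‖ < 1 := hs a (Multiset.mem_cons_self a t)
        by_cases ht : t = 0
        · rw [ht]; simpa using ha
        · have := ih ht (fun z hz => hs z (Multiset.mem_cons_of_mem hz))
          exact mul_lt_one_of_nonneg_of_lt_one_left (norm_nonneg _) ha this.le
    exact h4 _ hne hroot
  linarith

theorem gcdk : S_GCDK := by
  intro K _ _ N A c β σ₀ hsum hsmall φ ρ hρ
  -- the polynomial `F (X) = ∑ c σ A σ (β - X)`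
  set F : Polynomial (𝓞 K) := ∑ σ, C (c σ) * (A σ).comp (C (β : 𝓞 K) - X) with hF
  have hF0 : F.coeff 0 = 1 := by
    rw [coeff_zero_eq_eval_zero, hF, eval_finsetSum, ← hsum]
    refine Finset.sum_congr rfl fun σ _ => ?_
    simp
  have hcomp : ∀ (ψ : 𝓞 K →+* ℂ) (z : ℂ), F.eval₂ ψ z = ∑ σ, ψ (c σ) * (A σ).eval₂ ψ (β - z) := by
    intro ψ z
    rw [hF, eval₂_finsetSum]
    refine Finset.sum_congr rfl fun σ _ => ?_
    rw [eval₂_mul, eval₂_C, eval₂_comp]
    simp
  have hFz : F.eval₂ (em φ) (β - ρ) = 0 := by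
    rw [hcomp]
    refine Finset.sum_eq_zero fun σ _ => ?_
    rw [sub_sub_cancel, hρ σ, mul_zero]
  set s : ℂ := β - ρ with hs
  have hρlt := hsmall φ ρ (hρ σ₀)
  have hsnorm : 1 < ‖s‖ := by
    have h1 : (β : ℝ) - ‖ρ‖ ≤ ‖s‖ := by
      have := norm_sub_norm_le (β : ℂ) ρ
      rw [Complex.norm_natCast] at this
      exact this
    linarith
  have hs0 : s ≠ 0 := by
    intro h; rw [h, norm_zero] at hsnorm; linarith
  -- `y = 1 / s` is an algebraic integer
  set y : ℂ := s⁻¹ with hy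
  have hy0 : y ≠ 0 := inv_ne_zero hs0
  have hyint : IsIntegral ℤ y := by
    letI : Algebra (𝓞 K) ℂ := (em φ).toAlgebra
    have h1 : IsIntegral (𝓞 K) y := by
      refine ⟨F.reverse, ?_, ?_⟩
      · rw [Monic, reverse_leadingCoeff, trailingCoeff]
        have : F.natTrailingDegree = 0 := by
          rw [natTrailingDegree_eq_zero]
          right
          rw [hF0]
          exact one_ne_zero
        rw [this, hF0]
      · haveI : Invertible s := invertibleOfNonzero hs0
        have := (eval₂_reverse_eq_zero_iff (em φ) s F).2 hFz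
        rw [invOf_eq_inv] at this
        exact this
    exact isIntegral_trans y h1
  obtain ⟨y', hy'root, hy'1⟩ := exists_conj_ge y hyint hy0
  -- a homomorphism of the algebraic numbers
  obtain ⟨E, hE⟩ : ∃ E : IntermediateField ℚ ℂ, E = algebraicClosure ℚ ℂ := ⟨_, rfl⟩
  have hEalg : Algebra.IsAlgebraic ℚ E := by
    subst hE
    exact ⟨fun x => IntermediateField.isAlgebraic_iff.mpr (mem_algebraicClosure_iff.1 x.2)⟩
  have hEint : Algebra.IsIntegral ℚ E := hEalg.isIntegral
  have halg : ∀ x : ℂ, IsIntegral ℚ x → x ∈ E := fun x hx => by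
    rw [hE]
    exact mem_algebraicClosure_iff.2 hx.isAlgebraic
  have hyE : y ∈ E := halg y hyint.tower_top
  have hsE : s ∈ E := by
    have := E.inv_mem hyE
    rwa [hy, inv_inv] at this
  have hφE : ∀ x : K, φ x ∈ E := fun x =>
    halg _ ((Algebra.IsIntegral.isIntegral (R := ℚ) x).map φ.toRatAlgHom)
  obtain ⟨ψ, hψ⟩ := IntermediateField.exists_algHom_of_splits_of_aeval (F := ℚ) (E := E) (K := ℂ)
    (fun z => ⟨Algebra.IsIntegral.isIntegral z, IsAlgClosed.splits _⟩) (x := ⟨y, hyE⟩) (y := y') (by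
      rw [← hy'root]
      congr 1
      exact IntermediateField.minpoly_eq (⟨y, hyE⟩ : E))
  -- the embedding into `E` and the conjugate embedding
  let φE : K →+* E := φ.codRestrict E hφE
  let φ' : K →+* ℂ := (ψ : E →+* ℂ).comp φE
  let ρE : E := (β : E) - (⟨y, hyE⟩ : E)⁻¹
  have hρE : (ρE : ℂ) = ρ := by
    show ((β : E) : ℂ) - ((⟨y, hyE⟩ : E)⁻¹ : E) = ρ
    push_cast
    rw [hy, inv_inv, hs]
    ring
  have hzE : (A σ₀).eval₂ (φE.comp (algebraMap (𝓞 K) K)) ρE = 0 := by
    have hinj : Function.Injective (algebraMap E ℂ) := (algebraMap E ℂ).injective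
    apply hinj
    rw [map_zero, hom_eval₂]
    have e1 : (algebraMap E ℂ).comp (φE.comp (algebraMap (𝓞 K) K)) = em φ := by
      ext x; rfl
    have e2 : (algebraMap E ℂ) ρE = ρ := hρE
    rw [e1, e2]
    exact hρ σ₀
  have hz' : (A σ₀).eval₂ (em φ') (ψ ρE) = 0 := by
    have := congrArg (ψ : E →+* ℂ) hzE
    rw [map_zero, hom_eval₂] at this
    exact this
  have hlt := hsmall φ' (ψ ρE) hz'
  have hψρ : ψ ρE = β - y'⁻¹ := by
    show ψ ((β : E) - (⟨y, hyE⟩ : E)⁻¹) = _
    rw [map_sub, map_natCast, map_inv₀, hψ]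
  have h1 : (β : ℝ) - ‖y'⁻¹‖ ≤ ‖ψ ρE‖ := by
    rw [hψρ]
    have := norm_sub_norm_le (β : ℂ) y'⁻¹
    rw [Complex.norm_natCast] at this
    exact this
  have h2 : ‖y'⁻¹‖ ≤ 1 := by
    rw [norm_inv]
    exact inv_le_one_of_one_le₀ hy'1
  linarith

end Pool.Agent.P8H71.EA
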