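import Pool.Agent.P8H71.EA.Masn
import Pool.Agent.Y954.U557.BMG

/-!
# Project EA: the package MASN, conclusion
-/

set_option autoImplicit false

namespace Pool.Agent.P8H71.EA

open Pool.Agent.P8H51.EA Polynomial
open Pool.Agent.Y557.NF (rts nz)

theorem masn : S_MASN := by
  classical
  refine masn_of fun n P D h1 h2 h3 h4 h5 h6 h7 h8 => ?_
  refine (Pool.Agent.Y954.U557.bmg_holds ℂ n P D h1 h2 h3 h4 h5 h6 h7 h8).trans
    (Nat.mul_le_mul_left _ ?_)
  unfold nz rts
  split_ifs
  · exact le_of_eq (by congr!)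
  · exact le_trans (le_of_eq (by simp)) (Nat.le_succ _)

end Pool.Agent.P8H71.EA
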